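import Pool.Agent.MP_c4ca5b_lc.Defs
import Pool.Agent.Mg.Fc4ca5b.G3530f0

namespace Pool.Agent.Results.MP_c4ca5b_lc.NoErgodicUniversal

open Pool.Agent.MP_c4ca5b_lc

/-- For `n ≥ 2`, every free continuous action of `ℤ^n` on a Polish space with a dense orbit has a
Baire-measurable labelling for some LCL problem outside `BAIRE(ℤ^n)`; so no such action is
Baire-universal. -/
theorem result (n : ℕ) (hn : 2 ≤ n) (X : Type) [TopologicalSpace X] [PolishSpace X]
    [AddAction (Fin n → ℤ) X] [ContinuousConstVAdd (Fin n → ℤ) X] (hfree : IsFree n X)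
    (hdense : ∃ x : X, Dense (AddAction.orbit (Fin n → ℤ) x)) :
    ∃ P : LCL n, HasBaireLabelling P X ∧ ¬ InBaire P := by
  have : Nontrivial (Fin n) := Fin.nontrivial_iff_two_le.2 hn
  by_cases hT : TT n X
  · obtain ⟨x, -⟩ := hdense
    have : Nonempty X := ⟨x⟩
    exact ⟨mainLCL ⟨0, by omega⟩, main_solved hT hfree _, main_not_inBaire _⟩
  · obtain ⟨a, ha⟩ := per_solved hdense hT
    exact ⟨perLCL n a, ha, per_not_inBaire a⟩

end Pool.Agent.Results.MP_c4ca5b_lc.NoErgodicUniversal
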