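import Pool.Agent.MP_c4ca5b_lc.Defs
import Pool.Agent.MP_c4ca5b_lc.Per.Dyn

namespace Pool.Agent.Results.MP_c4ca5b_lc.Periods

open Pool.Agent.MP_c4ca5b_lc

/-- For `n ≥ 2`, a subgroup `Γ` of prime index in `ℤ^n` and a bound `m`, one LCL problem outside
`BAIRE(ℤ^n)` is solved by every free continuous action on a Polish space, except those with a
nonempty open set `U` that returns to itself only along `Γ` and has no nonempty open subset that
returns to itself only along another subgroup of prime index at most `m`. -/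
theorem result (n : ℕ) (hn : 2 ≤ n) (Γ : AddSubgroup (Fin n → ℤ)) (hΓ : Γ.index.Prime) (m : ℕ) :
    ∃ P : LCL n, ¬ InBaire P ∧ ∀ (X : Type) [TopologicalSpace X] [PolishSpace X]
      [AddAction (Fin n → ℤ) X] [ContinuousConstVAdd (Fin n → ℤ) X], IsFree n X →
      HasBaireLabelling P X ∨ ∃ U : Set X, IsOpen U ∧ U.Nonempty ∧
        (∀ v : Fin n → ℤ, ∀ x ∈ U, v +ᵥ x ∈ U → v ∈ Γ) ∧
        ∀ V ⊆ U, IsOpen V → V.Nonempty → ∀ Γ' : AddSubgroup (Fin n → ℤ), Γ'.index.Prime →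
          Γ'.index ≤ m → (∀ v : Fin n → ℤ, ∀ x ∈ V, v +ᵥ x ∈ V → v ∈ Γ') → Γ' = Γ := by
  have : Nontrivial (Fin n) := Fin.nontrivial_iff_two_le.2 hn
  obtain ⟨M, h1, h2, h3⟩ : ∃ M, m ≤ M ∧ Γ.index ≤ M ∧ 3 ≤ M :=
    ⟨m + Γ.index + 3, by omega, by omega, by omega⟩
  let _ : B.Bs := ⟨M.factorial, h3.trans M.self_le_factorial⟩
  have hb : ∀ q : ℕ, q.Prime → (q ≤ M ↔ q ∣ B.bN) := fun q hq => hq.dvd_factorial.symm
  refine ⟨B.cLCL ⟨0, by omega⟩ Γ M, B.not_inBaire _ M hΓ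
    (Int.natCast_dvd_natCast.2 ((hb _ hΓ).1 h2)) fun i hi => ?_, fun X _ _ _ _ hf => ?_⟩
  · have h4 : B.bN ∣ Γ.index ^ i := Int.natCast_dvd_natCast.1 (by rw [Nat.cast_pow]; exact hi)
    have h5 : ∀ q : ℕ, q.Prime → q ≤ M → q = Γ.index := fun q hq h =>
      (Nat.prime_dvd_prime_iff_eq hq hΓ).1 (hq.dvd_of_dvd_pow (((hb q hq).1 h).trans h4))
    have := h5 2 Nat.prime_two (by omega)
    have := h5 3 Nat.prime_three h3
    omega
  · refine or_iff_not_imp_right.2 fun hn => B.solved hf _ Γ hb fun U a1 a2 a3 => ?_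
    by_contra hc
    exact hn ⟨U, a1, a2, a3, fun V b1 b2 b3 Γ' b4 b5 b6 => by
      by_contra b7
      exact hc ⟨V, b1, b2, b3, Γ', b7, b4, b5.trans h1, b6⟩⟩

end Pool.Agent.Results.MP_c4ca5b_lc.Periods
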